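import Pool.Agent.Q92.KX.Space

/-!
MP_30cf1a_an, Q1: for every `n ≥ 4` there is one extremal `n`-dimensional real normed space (it has
a hyperplane `Y` with `λ(Y, X) = 2 - 2 / n`) without any `1`-complemented subspace of dimension
between `3` and `n - 1`.  Hence `k(n) ≤ 2`, and with the known `k(n) ≥ 2`, `k(n) = 2`.
-/

namespace Pool.Agent.Results.MP_30cf1a_an.KTwo

open Q92.KX

/-- `X` is an extremal `n`-dimensional normed space. -/
def Extremal (n : ℕ) (X : Type) [NormedAddCommGroup X] [NormedSpace ℝ X] : Prop :=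
  Module.finrank ℝ X = n ∧
    ∃ Y : Submodule ℝ X, Module.finrank ℝ Y = n - 1 ∧ relProj X Y = 2 - 2 / n

theorem result (n : ℕ) (hn : 4 ≤ n) :
    ∃ (X : Type) (_ : NormedAddCommGroup X) (_ : NormedSpace ℝ X),
      Extremal n X ∧
      ∀ Z : Submodule ℝ X, 3 ≤ Module.finrank ℝ Z → Module.finrank ℝ Z ≤ n - 1 →
        relProj X Z ≠ 1 := by
  obtain ⟨X, i1, i2, h1, h2, h3⟩ := main n hn
  exact ⟨X, i1, i2, ⟨h1, h2⟩, h3⟩

end Pool.Agent.Results.MP_30cf1a_an.KTwo
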